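import Pool.Agent.Work.MP_d3fa71_gt.Mut.AsmFin

/-!
# The AJ conjecture is false

There are two knots with the same coloured Jones function whose A-polynomials have different
irreducible factors of positive degree in `L`. So the AJ conjecture fails for one of the two.
(The two knots are mutants, with representations into `SL₂` that are reducible on the mutation
sphere; the proof is in `Pool/Agent/Work/MP_d3fa71_gt/Mut`, see `PROOF.md` there.)
-/

open Polynomial

namespace Pool.Agent.Results.MP_d3fa71_gt.AJFalse

open AJM

/-- Two knots `w`, `w'` (given by diagrams with the same writhe `e`) with the same coloured Jones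
function `J`: their A-polynomials exist, a non-commutative A-polynomial of `J` exists, and there is
an irreducible polynomial `F(M, L)` of positive degree in `L` which divides the A-polynomial of `w`
but not the one of `w'`. Consequently, for `w` or for `w'`, the statement of the AJ conjecture
fails: some irreducible `F` of positive degree in `L` divides exactly one of `α(1, M², L)` and
`A(M, L)`. -/
theorem result :
    ∃ (w w' : List Mv) (e : ℤ), IsKnot w e ∧ IsKnot w' e ∧ (∀ n, Jc w e n = Jc w' e n) ∧
      (∃ A, AJG.IsAPoly (KG w e) A) ∧ (∃ A, AJG.IsAPoly (KG w' e) A) ∧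
      (∃ α, AJG.IsNCA (Jc w e) α) ∧
      (∃ F : ℤ[X][X], Irreducible F ∧ 0 < F.natDegree ∧
        (∀ A, AJG.IsAPoly (KG w e) A → F ∣ A) ∧ (∀ A, AJG.IsAPoly (KG w' e) A → ¬ F ∣ A)) ∧
      (¬ AJ w e ∨ ¬ AJ w' e) :=
  Final_holds

end Pool.Agent.Results.MP_d3fa71_gt.AJFalse
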