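import Pool.Agent.Work.MP_d3fa71_gt.All

/-!
# The AJ conjecture for all graph knots

Every graph knot (iterated cables and connected sums, that is every knot of simplicial volume
zero) satisfies the AJ conjecture.
-/

namespace Pool.Agent.Results.MP_d3fa71_gt.GraphKnots

/-- The AJ conjecture holds for every graph knot. -/
theorem result : ∀ K : AJG.GK, K.Valid → K.AJ := AJG.Main_thm

end Pool.Agent.Results.MP_d3fa71_gt.GraphKnots
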